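import Pool.Agent.R723.SubLatProd

/-!
# Lattices embeddable into subspace lattices over fields: not a variety, not finitely axiomatizable

The definitions `Lat` (the first-order language of lattices), `latStructure` and `EmbedsField` are in
`Pool/Agent/R723/SubLatDefs.lean`, the definition `Satisfies` in `Pool/Agent/R723/SubLatProd.lean`.
-/

namespace Pool.Agent.Results.MP_622f37_al.NoAxiomatization

open FirstOrder Pool.Agent.R723.SubLat

universe u

/-- All three statements (i), (ii), (iii) are false for the class of lattices embeddable into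
the lattice of subspaces of a vector space over a (commutative) field: no set of identities
specifies the class, no finite set of first-order sentences specifies the class, and no finite set
of identities specifies the class. -/
theorem result :
    (¬ ∃ S : Set (Lat.Term ℕ × Lat.Term ℕ),
      ∀ (L : Type u) [Lattice L], EmbedsField L ↔ ∀ e ∈ S, Satisfies L e) ∧
    (¬ ∃ S : Set Lat.Sentence, S.Finite ∧
      ∀ (L : Type u) [Lattice L], EmbedsField L ↔ ∀ φ ∈ S, L ⊨ φ) ∧
    (¬ ∃ S : Set (Lat.Term ℕ × Lat.Term ℕ), S.Finite ∧
      ∀ (L : Type u) [Lattice L], EmbedsField L ↔ ∀ e ∈ S, Satisfies L e) := by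
  have h2 : ∀ (L : Type u) [Lattice L], EmbedsField L → EmbedsSkew L :=
    fun _ _ ⟨F, _, V, hV, hM, f, hf⟩ => ⟨F, inferInstance, V, hV, hM, f, hf⟩
  have h := not_identities (fun L _ => EmbedsField L) (fun _ _ h => h) h2
  exact ⟨h, not_finitely_axiomatizable (fun L _ => EmbedsField L) (fun _ _ h => h) h2,
    fun ⟨S, _, hS⟩ => h ⟨S, hS⟩⟩

end Pool.Agent.Results.MP_622f37_al.NoAxiomatization
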